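import Pool.Agent.W2helper77.CB.Fin
import Pool.Agent.Results.MP_ce738d_pr.GreedyVersusLeafDepth

/-!
# Height versus greedy path in the critical beta-splitting tree

`E[L*_n] - E[L⁺_n]` is of order `log² n`.
-/

set_option autoImplicit false

namespace Pool.Agent.Results.MP_ce738d_pr.HeightVersusGreedy

open Filter Topology BinaryTree

/-- The split probability `q(m,i) = m / (2 h_{m-1} i (m-i))`, with `h_{m-1} = 1 + 1/2 + ... +
1/(m-1)`. -/
noncomputable def q (m i : ℕ) : ℝ :=
  (m : ℝ) / (2 * (harmonic (m - 1) : ℝ) * ((i : ℝ) * ((m : ℝ) - i)))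

/-- The probability that the random tree `DTCS(m)` equals a given binary tree with `m` leaves: the
product over the splits of the split probabilities. A tree is `nil` (a leaf, that is a clade of size
one) or a node with a left and a right subtree; the size of a clade is its number of leaves. -/
noncomputable def treeProb : BinaryTree Unit → ℝ
  | .nil => 1
  | .node _ l r => q (l.numLeaves + r.numLeaves) l.numLeaves * (treeProb l * treeProb r)

/-- The height: the largest depth of a leaf, in edges. -/
def height : BinaryTree Unit → ℕ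
  | .nil => 0
  | .node _ l r => 1 + max (height l) (height r)

/-- The length of the greedy path: at each split move into the larger sub-clade (the left one in
case of equality) until a leaf is reached. -/
def greedyLength : BinaryTree Unit → ℕ
  | .nil => 0
  | .node _ l r => 1 + if r.numLeaves ≤ l.numLeaves then greedyLength l else greedyLength r

/-- Expectation of `f` over the random tree `DTCS(n)`: the sum over all binary trees with `n`
leaves (that is with `n - 1` internal nodes). -/
noncomputable def expect (n : ℕ) (f : BinaryTree Unit → ℝ) : ℝ :=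
  ∑ t ∈ treesOfNumNodesEq (n - 1), treeProb t * f t

/-- The expected height `E[L*_n]`. -/
noncomputable def meanHeight (n : ℕ) : ℝ := expect n (fun t => (height t : ℝ))

/-- The expected length `E[L⁺_n]` of the greedy path. -/
noncomputable def meanGreedy (n : ℕ) : ℝ := expect n (fun t => (greedyLength t : ℝ))

theorem treeProb_eq (t : BinaryTree Unit) : treeProb t = Pool.Agent.R982.CBS.treeProb t := by
  induction t with
  | nil => rfl
  | node a l r ihl ihr =>
    rw [treeProb, Pool.Agent.R982.CBS.treeProb, ihl, ihr]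
    rfl

theorem height_eq (t : BinaryTree Unit) : height t = Pool.Agent.W2helper77.CB.ht t := by
  induction t with
  | nil => rfl
  | node a l r ihl ihr => rw [height, Pool.Agent.W2helper77.CB.ht, ihl, ihr]

theorem greedyLength_eq (t : BinaryTree Unit) :
    greedyLength t = Pool.Agent.R982.CBS.greedyLength t := by
  induction t with
  | nil => rfl
  | node a l r ihl ihr => rw [greedyLength, Pool.Agent.R982.CBS.greedyLength, ihl, ihr]

theorem meanHeight_succ (N : ℕ) : meanHeight (N + 1) = Pool.Agent.W2helper77.CB.M N := by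
  unfold meanHeight expect Pool.Agent.W2helper77.CB.M Pool.Agent.W2helper77.CB.E1
  rw [Nat.add_sub_cancel]
  exact Finset.sum_congr rfl fun t _ => by simp only [treeProb_eq, height_eq]

theorem meanGreedy_succ (N : ℕ) : meanGreedy (N + 1) = Pool.Agent.R982.CBS.G N := by
  unfold meanGreedy expect Pool.Agent.R982.CBS.G
  rw [Nat.add_sub_cancel]
  exact Finset.sum_congr rfl fun t _ => by simp only [treeProb_eq, greedyLength_eq]

open Pool.Agent.R982.CBS Pool.Agent.W2helper77.CB in
/-- The expected height and the expected length of the greedy path in `DTCS(n)` differ by an amount of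
the order `log² n`: there are `0 < c ≤ C` with
`c log² n ≤ E[L*_n] - E[L⁺_n] ≤ C log² n` for all large `n`. -/
theorem result : ∃ c C : ℝ, 0 < c ∧ c ≤ C ∧ ∀ᶠ n : ℕ in atTop,
    c * Real.log n ^ 2 ≤ meanHeight n - meanGreedy n ∧
      meanHeight n - meanGreedy n ≤ C * Real.log n ^ 2 := by
  obtain ⟨C0, hC0⟩ := Pool.Agent.W2helper77.CB.lower
  have hs := s0_pos
  have hs1 := s0_le
  set δ : ℝ := 1 / 10 ^ 6 with hδ
  have hδ0 : 0 < δ := by rw [hδ]; norm_num
  have hlt : 1 / (2 * (Real.pi ^ 2 / 12)) < (1 + δ / 2) / (2 * s0) := by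
    have e : Real.pi ^ 2 / 12 = s0 := rfl
    rw [e]
    apply div_lt_div_of_pos_right _ (by positivity)
    linarith
  have hG := G_asymp.eventually (eventually_le_nhds hlt)
  have hHlog := Pool.Agent.Results.MP_ce738d_pr.GreedyVersusLeafDepth.H_div_log.eventually
    (eventually_le_nhds (show (1 : ℝ) < 2 by norm_num))
  have hHt := H_tendsto_atTop.eventually_ge_atTop (|C0| * (8 / δ) + 1)
  refine ⟨δ / 8, 32, by positivity, by rw [hδ]; norm_num, ?_⟩
  have key : ∀ᶠ N : ℕ in atTop,
      δ / 8 * Real.log ((N + 1 : ℕ) : ℝ) ^ 2 ≤ meanHeight (N + 1) - meanGreedy (N + 1) ∧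
        meanHeight (N + 1) - meanGreedy (N + 1) ≤ 32 * Real.log ((N + 1 : ℕ) : ℝ) ^ 2 := by
    filter_upwards [hG, hHlog, hHt, eventually_ge_atTop 1] with N h1 h2 h3 hN
    rw [meanHeight_succ, meanGreedy_succ]
    have hH := H_pos hN
    have hH1 := H_one_le hN
    have hlogH : Real.log ((N + 1 : ℕ) : ℝ) ≤ H N := by
      push_cast
      exact log_le_H N
    have hlog0 : 0 < Real.log ((N + 1 : ℕ) : ℝ) := by
      apply Real.log_pos
      have : (1 : ℝ) ≤ N := by exact_mod_cast hN
      push_cast
      linarith
    have hHlog2 : H N ≤ 2 * Real.log ((N + 1 : ℕ) : ℝ) := by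
      rwa [div_le_iff₀ hlog0] at h2
    have hG' : G N ≤ (1 + δ / 2) / (2 * s0) * H N ^ 2 := by
      rwa [div_le_iff₀ (by positivity)] at h1
    have hG0 : 0 ≤ G N := by
      unfold G
      exact Finset.sum_nonneg fun t _ => mul_nonneg (treeProb_nonneg t) (by positivity)
    have hM := hC0 N
    constructor
    · have h4 : (1 + δ) / (2 * s0) * H N ^ 2 - (1 + δ / 2) / (2 * s0) * H N ^ 2 =
          δ / (4 * s0) * H N ^ 2 := by
        field_simp
        ring
      have h5 : δ / 4 ≤ δ / (4 * s0) := by
        apply div_le_div_of_nonneg_left hδ0.le (by positivity)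
        linarith
      have h6 : δ / 4 * H N ^ 2 ≤ δ / (4 * s0) * H N ^ 2 :=
        mul_le_mul_of_nonneg_right h5 (by positivity)
      have h7 : C0 ≤ δ / 8 * H N ^ 2 := by
        have h8 : |C0| ≤ δ / 8 * H N := by
          have : |C0| * (8 / δ) ≤ H N := by linarith
          rw [mul_div_assoc', div_le_iff₀ hδ0] at this
          linarith
        have h9 : δ / 8 * H N ≤ δ / 8 * H N ^ 2 := by
          apply mul_le_mul_of_nonneg_left _ (by positivity)
          nlinarith
        exact (le_abs_self C0).trans (h8.trans h9)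
      have h10 : Real.log ((N + 1 : ℕ) : ℝ) ^ 2 ≤ H N ^ 2 := pow_le_pow_left₀ hlog0.le hlogH 2
      have h11 : δ / 8 * Real.log ((N + 1 : ℕ) : ℝ) ^ 2 ≤ δ / 8 * H N ^ 2 :=
        mul_le_mul_of_nonneg_left h10 (by positivity)
      linarith
    · have h4 := M_le hN
      have h5 : H N ^ 2 ≤ (2 * Real.log ((N + 1 : ℕ) : ℝ)) ^ 2 :=
        pow_le_pow_left₀ hH.le hHlog2 2
      linarith
  obtain ⟨N0, hN0⟩ := eventually_atTop.mp key
  filter_upwards [eventually_ge_atTop (N0 + 1)] with n hn
  obtain ⟨N, rfl⟩ : ∃ N, n = N + 1 := ⟨n - 1, by omega⟩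
  exact hN0 N (by omega)

end Pool.Agent.Results.MP_ce738d_pr.HeightVersusGreedy
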